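import Pool.Agent.H51.EG.Def

/-! Project EGYPT: S_CHEB -/

open Finset

namespace Pool.Agent.H33.EG

open Pool.Agent.H51.EG

theorem sq_le (t : ℕ) (ht : 10 ≤ t) : 1024 * (t + 3) ^ 2 ≤ 169 * 2 ^ t := by
  induction t, ht using Nat.le_induction with
  | base => norm_num
  | succ n hn ih =>
    rw [pow_succ 2 n]
    nlinarith

theorem cheb : S_CHEB := by
  intro t ht
  have hx0 : (0 : ℝ) < 2 ^ t := by positivity
  set x : ℝ := 2 ^ t with hx
  have hl2 : 0 < Real.log 2 := Real.log_pos one_lt_two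
  -- lower bound for theta
  have h1 := Chebyshev.theta_ge (2 ^ (t + 3))
  have h2 := Chebyshev.theta_le_log4_mul_x (x := ((2 ^ t : ℕ) : ℝ)) (Nat.cast_nonneg _)
  have hsub : Chebyshev.theta ((2 ^ (t + 3) : ℕ) : ℝ) ≤
      Chebyshev.theta ((2 ^ t : ℕ) : ℝ) + (Qs t).card * ((t + 3) * Real.log 2) := by
    rw [Chebyshev.theta_eq_sum_primesLE_log, Chebyshev.theta_eq_sum_primesLE_log]
    have hss : Nat.primesLE (2 ^ (t + 3)) ⊆ Nat.primesLE (2 ^ t) ∪ Qs t := by
      intro p hp
      rw [Nat.mem_primesLE] at hp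
      rw [Finset.mem_union, Nat.mem_primesLE, Qs, Finset.mem_filter, Finset.mem_Ioc]
      rcases le_or_gt p (2 ^ t) with h | h
      · exact Or.inl ⟨h, hp.2⟩
      · exact Or.inr ⟨⟨h, hp.1⟩, hp.2⟩
    have hdisj : Disjoint (Nat.primesLE (2 ^ t)) (Qs t) := by
      rw [Finset.disjoint_left]
      intro p hp hq
      rw [Nat.mem_primesLE] at hp
      rw [Qs, Finset.mem_filter, Finset.mem_Ioc] at hq
      omega
    calc ∑ p ∈ Nat.primesLE (2 ^ (t + 3)), Real.log p
        ≤ ∑ p ∈ Nat.primesLE (2 ^ t) ∪ Qs t, Real.log p :=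
          Finset.sum_le_sum_of_subset_of_nonneg hss fun p _ _ => Real.log_natCast_nonneg p
      _ = ∑ p ∈ Nat.primesLE (2 ^ t), Real.log p + ∑ p ∈ Qs t, Real.log p := Finset.sum_union hdisj
      _ ≤ _ := by
          gcongr
          rw [← nsmul_eq_mul, ← Finset.sum_const]
          refine Finset.sum_le_sum fun p hp => ?_
          rw [Qs, Finset.mem_filter, Finset.mem_Ioc] at hp
          have hp0 : (0 : ℝ) < p := by exact_mod_cast hp.2.pos
          have hpl : (p : ℝ) ≤ 2 ^ (t + 3) := by exact_mod_cast hp.1.2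
          calc Real.log p ≤ Real.log (2 ^ (t + 3)) := Real.log_le_log hp0 hpl
            _ = _ := by rw [Real.log_pow]; push_cast; ring
  have h4 : Real.log 4 = 2 * Real.log 2 := by
    rw [show (4 : ℝ) = 2 ^ 2 by norm_num, Real.log_pow]; push_cast; ring
  have e1 : ((2 ^ t : ℕ) : ℝ) = x := by push_cast; rfl
  have e2 : ((2 ^ (t + 3) : ℕ) : ℝ) = 8 * x := by push_cast; rw [pow_add, hx]; ring
  rw [e1, e2] at hsub
  rw [e2] at h1
  rw [e1, h4] at h2
  have hlog : Real.log (8 * x) = (t + 3) * Real.log 2 := by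
    rw [← e2]; push_cast; rw [Real.log_pow]; push_cast; ring
  have hlog1 : Real.log (8 * x + 1) ≤ (t + 4) * Real.log 2 := by
    have : Real.log (8 * x + 1) ≤ Real.log (2 ^ (t + 4)) := by
      refine Real.log_le_log (by positivity) ?_
      have : (2 : ℝ) ^ (t + 4) = 16 * x := by rw [pow_add, hx]; ring
      rw [this]
      have : (1 : ℝ) ≤ x := one_le_pow₀ (by norm_num)
      linarith
    refine this.trans (le_of_eq ?_)
    rw [Real.log_pow]; push_cast; ring
  rw [hlog] at h1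
  have hsq : √(8 * x) * (t + 3) ≤ 1.15 * x := by
    have hq : (1024 : ℝ) * (t + 3) ^ 2 ≤ 169 * x := by
      have := sq_le t ht
      rw [hx]
      exact_mod_cast this
    refine abs_le_of_sq_le_sq' ?_ (by positivity) |>.2
    rw [mul_pow, Real.sq_sqrt (by positivity)]
    nlinarith
  have ht' : (10 : ℝ) ≤ t := by exact_mod_cast ht
  have htx : (t : ℝ) + 4 ≤ 0.1 * x := by
    have hq : (1024 : ℝ) * (t + 3) ^ 2 ≤ 169 * x := by
      have := sq_le t ht
      rw [hx]
      exact_mod_cast this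
    nlinarith
  -- put together
  have hc : 3.6 * x * Real.log 2 ≤ (Qs t).card * ((t + 3) * Real.log 2) := by
    have g1 : 8 * x * Real.log 2 - (t + 4) * Real.log 2 - 2 * (√(8 * x) * (t + 3)) * Real.log 2 ≤
        2 * Real.log 2 * x + (Qs t).card * ((t + 3) * Real.log 2) := by
      have : 2 * √(8 * x) * ((t + 3) * Real.log 2) = 2 * (√(8 * x) * (t + 3)) * Real.log 2 := by ring
      linarith
    have g2 : 2 * (√(8 * x) * (t + 3)) * Real.log 2 ≤ 2 * (1.15 * x) * Real.log 2 := by gcongr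
    have g3 : (t + 4) * Real.log 2 ≤ 0.1 * x * Real.log 2 := by gcongr
    linarith
  have hc' : 3.6 * x ≤ (Qs t).card * (t + 3) := by
    have : 3.6 * x * Real.log 2 ≤ ((Qs t).card * (t + 3)) * Real.log 2 := by linarith
    exact le_of_mul_le_mul_right this hl2
  have hfin : x ≤ t * (Qs t).card := by
    have hcard : (0 : ℝ) ≤ (Qs t).card := Nat.cast_nonneg _
    have h5 : ((Qs t).card : ℝ) * (t + 3) ≤ (Qs t).card * (1.3 * t) := by
      gcongr; linarith
    nlinarith
  have : ((2 ^ t : ℕ) : ℝ) ≤ ((t * (Qs t).card : ℕ) : ℝ) := by push_cast; rw [← hx]; exact hfin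
  exact_mod_cast this

end Pool.Agent.H33.EG
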