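import Pool.Agent.H51.EG.Def

/-! Project EGYPT: S_CORR -/

open Finset

namespace Pool.Agent.H33.EG

open Pool.Agent.H51.EG

variable {Q : Finset ℕ} {s : ℕ}

/-- factorisation over the blocks -/
theorem sum_om (g : Fin s → (Bool → Q) → ℂ) :
    ∑ ω : Om Q s, ∏ i, g i (ω i) = ∏ i, ∑ x : Bool → Q, g i x := by
  rw [Finset.prod_univ_sum, Fintype.piFinset_univ]

theorem sum_bool (h : Bool → Q → ℂ) :
    ∑ x : Bool → Q, h true (x true) * h false (x false) = (∑ p : Q, h true p) * ∑ p : Q, h false p := by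
  have h1 : ∏ b, ∑ p : Q, h b p = ∑ x : Bool → Q, ∏ b, h b (x b) := by
    rw [Finset.prod_univ_sum, Fintype.piFinset_univ]
  simp only [Fintype.prod_bool] at h1
  exact h1.symm

theorem sum_two (f g : Q → ℂ) {a b : Bool} (hab : a ≠ b) :
    ∑ x : Bool → Q, f (x a) * g (x b) = (∑ p, f p) * ∑ p, g p := by
  cases a <;> cases b
  · exact absurd rfl hab
  · have := sum_bool (Q := Q) (fun c => if c then g else f)
    simp only [if_true, Bool.false_eq_true, if_false] at this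
    rw [mul_comm (∑ p, f p), ← this]
    exact Finset.sum_congr rfl fun x _ => mul_comm _ _
  · have := sum_bool (Q := Q) (fun c => if c then f else g)
    simp only [if_true, Bool.false_eq_true, if_false] at this
    exact this
  · exact absurd rfl hab

theorem card_bool : (Fintype.card (Bool → Q) : ℝ) = (Q.card : ℝ) ^ 2 := by
  rw [Fintype.card_fun, Fintype.card_bool, Fintype.card_coe]; push_cast; ring

theorem card_om : (Fintype.card (Om Q s) : ℝ) = ∏ _i : Fin s, (Q.card : ℝ) ^ 2 := by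
  rw [Finset.prod_const, Finset.card_univ, Fintype.card_fin]
  unfold Om
  rw [Fintype.card_fun, Fintype.card_fin]
  push_cast
  rw [card_bool]

theorem norm_sum_chi_le {A : ℕ} (χ : DirichletCharacter ℂ A) : ‖∑ p : Q, χ ((p : ℕ) : ZMod A)‖ ≤ Q.card := by
  refine (norm_sum_le _ _).trans ?_
  refine (Finset.sum_le_sum fun p _ => χ.norm_le_one _).trans ?_
  simp

theorem cast_u {A : ℕ} (ω : Om Q s) (σ : Fin s → Bool) :
    ((u ω σ : ℕ) : ZMod A) = ∏ i, ((ω i (σ i) : ℕ) : ZMod A) := by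
  rw [u]; push_cast; rfl

theorem sum_chi_sub {A : ℕ} (χ : DirichletCharacter ℂ A) :
    ∑ p : Q, χ ((p : ℕ) : ZMod A) = ∑ p ∈ Q, χ ((p : ℕ) : ZMod A) :=
  Finset.sum_coe_sort Q fun p => χ ((p : ℕ) : ZMod A)

/-- the character sum over the sample space -/
theorem norm_char_le {η : ℝ} {A B : ℕ} (hη : 0 ≤ η) (hA : NE Q η A) (hB : NE Q η B)
    (χ : DirichletCharacter ℂ A) (ψ : DirichletCharacter ℂ B) (h : χ ≠ 1 ∨ ψ ≠ 1) (σ τ : Fin s → Bool) :
    ‖∑ ω : Om Q s, χ ((u ω σ : ℕ) : ZMod A) * ψ ((u ω τ : ℕ) : ZMod B)‖ ≤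
      Fintype.card (Om Q s) * η ^ hammingDist σ τ := by
  have h1 : ∀ ω : Om Q s, χ ((u ω σ : ℕ) : ZMod A) * ψ ((u ω τ : ℕ) : ZMod B) =
      ∏ i, (χ ((ω i (σ i) : ℕ) : ZMod A) * ψ ((ω i (τ i) : ℕ) : ZMod B)) := by
    intro ω
    rw [cast_u, cast_u, map_prod, map_prod, Finset.prod_mul_distrib]
  simp only [h1]
  rw [sum_om (fun i x => χ ((x (σ i) : ℕ) : ZMod A) * ψ ((x (τ i) : ℕ) : ZMod B)), norm_prod, card_om]
  have h2 : η ^ hammingDist σ τ = ∏ i : Fin s, (if σ i ≠ τ i then η else 1) := by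
    rw [Finset.prod_ite, Finset.prod_const_one, mul_one, Finset.prod_const]
    rfl
  rw [h2, ← Finset.prod_mul_distrib]
  refine Finset.prod_le_prod (fun i _ => norm_nonneg _) fun i _ => ?_
  have hQ : (0 : ℝ) ≤ Q.card := Nat.cast_nonneg _
  by_cases hi : σ i = τ i
  · rw [if_neg (not_not_intro hi), mul_one]
    refine (norm_sum_le _ _).trans ?_
    rw [← card_bool]
    calc ∑ x : Bool → Q, ‖χ ((x (σ i) : ℕ) : ZMod A) * ψ ((x (τ i) : ℕ) : ZMod B)‖
        ≤ ∑ _x : Bool → Q, (1 : ℝ) := by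
          refine Finset.sum_le_sum fun x _ => ?_
          rw [norm_mul]
          exact mul_le_one₀ (χ.norm_le_one _) (norm_nonneg _) (ψ.norm_le_one _)
      _ = _ := by simp
  · rw [if_pos hi]
    rw [sum_two (fun p : Q => χ ((p : ℕ) : ZMod A)) (fun p : Q => ψ ((p : ℕ) : ZMod B)) hi, norm_mul]
    rcases h with h | h
    · have e1 := hA χ h
      rw [← sum_chi_sub] at e1
      have e2 := norm_sum_chi_le (Q := Q) ψ
      calc _ ≤ (η * Q.card) * Q.card := mul_le_mul e1 e2 (norm_nonneg _) (by positivity)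
        _ = _ := by ring
    · have e1 := hB ψ h
      rw [← sum_chi_sub] at e1
      have e2 := norm_sum_chi_le (Q := Q) χ
      calc _ ≤ (Q.card : ℝ) * (η * Q.card) := mul_le_mul e2 e1 (norm_nonneg _) hQ
        _ = _ := by ring

theorem ind_eq {A : ℕ} (hA : 0 < A) {e : ℕ} (he : Nat.Coprime e A) (v : ℕ) :
    (if A ∣ v + e then (1 : ℂ) else 0) =
      (A.totient : ℂ)⁻¹ * ∑ χ : DirichletCharacter ℂ A, χ (-(e : ZMod A))⁻¹ * χ (v : ZMod A) := by
  haveI : NeZero A := ⟨hA.ne'⟩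
  have hu : IsUnit (-(e : ZMod A)) := ((ZMod.isUnit_iff_coprime e A).2 he).neg
  rw [DirichletCharacter.sum_char_inv_mul_char_eq ℂ hu]
  have h0 : (A.totient : ℂ) ≠ 0 := by
    have := Nat.totient_pos.2 hA
    exact_mod_cast this.ne'
  have h1 : A ∣ v + e ↔ -(e : ZMod A) = (v : ZMod A) := by
    rw [← ZMod.natCast_eq_zero_iff]
    push_cast
    constructor
    · intro h; linear_combination -h
    · intro h; rw [← h]; ring
  by_cases h : A ∣ v + e
  · rw [if_pos h, if_pos (h1.1 h), inv_mul_cancel₀ h0]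
  · rw [if_neg h, if_neg (fun hh => h (h1.2 hh)), mul_zero]

theorem corr : S_CORR := by
  intro Q s η A B hQ hη hη1 hA hB hAn hBn hQA hQB e f he hf σ τ
  haveI : NeZero A := ⟨hA.ne'⟩
  haveI : NeZero B := ⟨hB.ne'⟩
  have hQ0 : (0 : ℝ) < Q.card := by exact_mod_cast hQ.card_pos
  have hC0 : (0 : ℝ) < Fintype.card (Om Q s) := by
    rw [card_om]; exact Finset.prod_pos fun _ _ => by positivity
  set C : ℝ := (Fintype.card (Om Q s) : ℝ) with hC
  have ha0 : (0 : ℝ) < A.totient := by exact_mod_cast Nat.totient_pos.2 hA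
  have hb0 : (0 : ℝ) < B.totient := by exact_mod_cast Nat.totient_pos.2 hB
  -- the sum of the indicators
  have key : ((∑ ω : Om Q s, (if A ∣ u ω σ + e ∧ B ∣ u ω τ + f then (1 : ℝ) else 0) : ℝ) : ℂ) =
      (A.totient : ℂ)⁻¹ * (B.totient : ℂ)⁻¹ * ∑ x : DirichletCharacter ℂ A × DirichletCharacter ℂ B,
        (x.1 (-(e : ZMod A))⁻¹ * x.2 (-(f : ZMod B))⁻¹) *
          ∑ ω : Om Q s, x.1 ((u ω σ : ℕ) : ZMod A) * x.2 ((u ω τ : ℕ) : ZMod B) := by
    have h0 : ∀ ω : Om Q s, (((if A ∣ u ω σ + e ∧ B ∣ u ω τ + f then (1 : ℝ) else 0) : ℝ) : ℂ) =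
        if A ∣ u ω σ + e ∧ B ∣ u ω τ + f then (1 : ℂ) else 0 := by
      intro ω
      split_ifs <;> simp
    have h1 : ∀ ω : Om Q s, (if A ∣ u ω σ + e ∧ B ∣ u ω τ + f then (1 : ℂ) else 0) =
        (A.totient : ℂ)⁻¹ * (B.totient : ℂ)⁻¹ * ∑ x : DirichletCharacter ℂ A × DirichletCharacter ℂ B,
          (x.1 (-(e : ZMod A))⁻¹ * x.2 (-(f : ZMod B))⁻¹) *
            (x.1 ((u ω σ : ℕ) : ZMod A) * x.2 ((u ω τ : ℕ) : ZMod B)) := by
      intro ω
      have h2 : (if A ∣ u ω σ + e ∧ B ∣ u ω τ + f then (1 : ℂ) else 0) =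
          (if A ∣ u ω σ + e then (1 : ℂ) else 0) * (if B ∣ u ω τ + f then (1 : ℂ) else 0) := by
        by_cases c1 : A ∣ u ω σ + e <;> by_cases c2 : B ∣ u ω τ + f <;> simp [c1, c2]
      rw [h2, ind_eq hA he, ind_eq hB hf, Fintype.sum_prod_type]
      have h3 : ∀ (χ : DirichletCharacter ℂ A), ∑ ψ : DirichletCharacter ℂ B,
          (χ (-(e : ZMod A))⁻¹ * ψ (-(f : ZMod B))⁻¹) *
            (χ ((u ω σ : ℕ) : ZMod A) * ψ ((u ω τ : ℕ) : ZMod B)) =
          (χ (-(e : ZMod A))⁻¹ * χ ((u ω σ : ℕ) : ZMod A)) *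
            ∑ ψ : DirichletCharacter ℂ B, ψ (-(f : ZMod B))⁻¹ * ψ ((u ω τ : ℕ) : ZMod B) := by
        intro χ
        rw [Finset.mul_sum]
        exact Finset.sum_congr rfl fun ψ _ => by ring
      simp only [h3]
      rw [← Finset.sum_mul]
      ring
    rw [Complex.ofReal_sum, Finset.sum_congr rfl fun ω _ => (h0 ω).trans (h1 ω)]
    rw [← Finset.mul_sum, Finset.sum_comm]
    congr 1
    exact Finset.sum_congr rfl fun x _ => by rw [Finset.mul_sum]
  -- split off the trivial characters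
  have htriv : ∑ ω : Om Q s, (1 : DirichletCharacter ℂ A) ((u ω σ : ℕ) : ZMod A) *
      (1 : DirichletCharacter ℂ B) ((u ω τ : ℕ) : ZMod B) = (C : ℂ) := by
    have h1 : ∀ ω : Om Q s, (1 : DirichletCharacter ℂ A) ((u ω σ : ℕ) : ZMod A) *
      (1 : DirichletCharacter ℂ B) ((u ω τ : ℕ) : ZMod B) = 1 := by
      intro ω
      have e1 : IsUnit ((u ω σ : ℕ) : ZMod A) := by
        rw [ZMod.isUnit_iff_coprime, u]
        exact Nat.Coprime.prod_left fun i _ => hQA _ (ω i (σ i)).2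
      have e2 : IsUnit ((u ω τ : ℕ) : ZMod B) := by
        rw [ZMod.isUnit_iff_coprime, u]
        exact Nat.Coprime.prod_left fun i _ => hQB _ (ω i (τ i)).2
      rw [MulChar.one_apply e1, MulChar.one_apply e2, one_mul]
    rw [Finset.sum_congr rfl fun ω _ => h1 ω, Finset.sum_const, Finset.card_univ, nsmul_eq_mul, mul_one, hC,
      Complex.ofReal_natCast]
  have hunit : (1 : DirichletCharacter ℂ A) (-(e : ZMod A))⁻¹ * (1 : DirichletCharacter ℂ B) (-(f : ZMod B))⁻¹ = 1 := by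
    have e1 : IsUnit (-(e : ZMod A)) := ((ZMod.isUnit_iff_coprime e A).2 he).neg
    have e2 : IsUnit (-(f : ZMod B)) := ((ZMod.isUnit_iff_coprime f B).2 hf).neg
    have e1' : IsUnit (-(e : ZMod A))⁻¹ := by
      obtain ⟨w, hw⟩ := e1
      rw [← hw]
      exact ⟨w⁻¹, (ZMod.inv_coe_unit w).symm⟩
    have e2' : IsUnit (-(f : ZMod B))⁻¹ := by
      obtain ⟨w, hw⟩ := e2
      rw [← hw]
      exact ⟨w⁻¹, (ZMod.inv_coe_unit w).symm⟩
    rw [MulChar.one_apply e1', MulChar.one_apply e2', one_mul]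
  classical
  have hsplit := Finset.add_sum_erase (Finset.univ : Finset (DirichletCharacter ℂ A × DirichletCharacter ℂ B))
    (fun x => (x.1 (-(e : ZMod A))⁻¹ * x.2 (-(f : ZMod B))⁻¹) *
          ∑ ω : Om Q s, x.1 ((u ω σ : ℕ) : ZMod A) * x.2 ((u ω τ : ℕ) : ZMod B)) (Finset.mem_univ (1, 1))
  rw [← hsplit] at key
  simp only at key
  rw [htriv, hunit, one_mul] at key
  -- the rest
  have hcardA : Fintype.card (DirichletCharacter ℂ A) = A.totient := by
    have := DirichletCharacter.card_eq_totient_of_hasEnoughRootsOfUnity ℂ A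
    rwa [Nat.card_eq_fintype_card] at this
  have hcardB : Fintype.card (DirichletCharacter ℂ B) = B.totient := by
    have := DirichletCharacter.card_eq_totient_of_hasEnoughRootsOfUnity ℂ B
    rwa [Nat.card_eq_fintype_card] at this
  have hrest : ‖∑ x ∈ (Finset.univ : Finset (DirichletCharacter ℂ A × DirichletCharacter ℂ B)).erase (1, 1),
      (x.1 (-(e : ZMod A))⁻¹ * x.2 (-(f : ZMod B))⁻¹) *
          ∑ ω : Om Q s, x.1 ((u ω σ : ℕ) : ZMod A) * x.2 ((u ω τ : ℕ) : ZMod B)‖ ≤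
      (A.totient * B.totient : ℝ) * (C * η ^ hammingDist σ τ) := by
    refine (norm_sum_le _ _).trans ?_
    calc _ ≤ ∑ _x ∈ (Finset.univ : Finset (DirichletCharacter ℂ A × DirichletCharacter ℂ B)).erase (1, 1),
          C * η ^ hammingDist σ τ := by
          refine Finset.sum_le_sum fun x hx => ?_
          have hx1 : x.1 ≠ 1 ∨ x.2 ≠ 1 := by
            by_contra hcon
            push Not at hcon
            exact (Finset.ne_of_mem_erase hx) (Prod.ext hcon.1 hcon.2)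
          rw [norm_mul, norm_mul]
          have n1 : ‖x.1 (-(e : ZMod A))⁻¹‖ * ‖x.2 (-(f : ZMod B))⁻¹‖ ≤ 1 :=
            mul_le_one₀ (x.1.norm_le_one _) (norm_nonneg _) (x.2.norm_le_one _)
          have n2 := norm_char_le hη hAn hBn x.1 x.2 hx1 σ τ
          calc _ ≤ 1 * (C * η ^ hammingDist σ τ) := mul_le_mul n1 n2 (norm_nonneg _) zero_le_one
            _ = _ := one_mul _
      _ ≤ ∑ _x : DirichletCharacter ℂ A × DirichletCharacter ℂ B, C * η ^ hammingDist σ τ :=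
          Finset.sum_le_sum_of_subset_of_nonneg (Finset.erase_subset _ _) fun _ _ _ => by positivity
      _ = _ := by
          rw [Finset.sum_const, Finset.card_univ, Fintype.card_prod, hcardA, hcardB, nsmul_eq_mul]
          push_cast; ring
  have hav : ((av (fun ω : Om Q s => if A ∣ u ω σ + e ∧ B ∣ u ω τ + f then (1 : ℝ) else 0)
    - 1 / ((Nat.totient A : ℝ) * (Nat.totient B : ℝ)) : ℝ) : ℂ) =
      ((A.totient : ℂ)⁻¹ * (B.totient : ℂ)⁻¹ * (C : ℂ)⁻¹) *
      ∑ x ∈ (Finset.univ : Finset (DirichletCharacter ℂ A × DirichletCharacter ℂ B)).erase (1, 1),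
      (x.1 (-(e : ZMod A))⁻¹ * x.2 (-(f : ZMod B))⁻¹) *
          ∑ ω : Om Q s, x.1 ((u ω σ : ℕ) : ZMod A) * x.2 ((u ω τ : ℕ) : ZMod B) := by
    rw [av, Complex.ofReal_sub, Complex.ofReal_div, key, ← hC]
    have hc : (C : ℂ) ≠ 0 := by exact_mod_cast hC0.ne'
    have ha : (A.totient : ℂ) ≠ 0 := by exact_mod_cast ha0.ne'
    have hb : (B.totient : ℂ) ≠ 0 := by exact_mod_cast hb0.ne'
    push_cast
    field_simp
    ring
  rw [← Real.norm_eq_abs, ← Complex.norm_real, hav, norm_mul]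
  have hn : ‖(A.totient : ℂ)⁻¹ * (B.totient : ℂ)⁻¹ * (C : ℂ)⁻¹‖ = ((A.totient : ℝ) * B.totient * C)⁻¹ := by
    rw [norm_mul, norm_mul, norm_inv, norm_inv, norm_inv, Complex.norm_natCast, Complex.norm_natCast,
      Complex.norm_real, Real.norm_of_nonneg hC0.le]
    field_simp
  rw [hn]
  calc _ ≤ ((A.totient : ℝ) * B.totient * C)⁻¹ * ((A.totient * B.totient : ℝ) * (C * η ^ hammingDist σ τ)) :=
        mul_le_mul_of_nonneg_left hrest (by positivity)
    _ = η ^ hammingDist σ τ := by field_simp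

end Pool.Agent.H33.EG
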