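import Pool.Agent.H51.EG.Def
import Pool.Agent.H33.G.R_seed8.Helper112.MultLS

/-! Project EGYPT: S_EXC -/

open Finset

namespace Pool.Agent.H33.EG

open Pool.Agent.H51.EG

/-- the number of ordered factorisations of `n` in `k` elements of `Q` -/
def rk (Q : Finset ℕ) (k n : ℕ) : ℕ := (univ.filter fun t : Fin k → Q => ∏ i, (t i : ℕ) = n).card

theorem rk_le {Q : Finset ℕ} (hQ : ∀ p ∈ Q, p.Prime) (k n : ℕ) : rk Q k n ≤ k.factorial := by
  classical
  rw [rk]
  rcases (univ.filter fun t : Fin k → Q => ∏ i, (t i : ℕ) = n).eq_empty_or_nonempty with h | ⟨t0, h0⟩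
  · rw [h, Finset.card_empty]; exact Nat.zero_le _
  · have key : ∀ t : Fin k → Q, ∏ i, (t i : ℕ) = n → (List.ofFn fun i => (t i : ℕ)).Perm n.primeFactorsList := by
      intro t ht
      refine Nat.primeFactorsList_unique ?_ ?_
      · rw [List.prod_ofFn]; exact ht
      · intro p hp
        rw [List.mem_ofFn] at hp
        obtain ⟨i, rfl⟩ := hp
        exact hQ _ (t i).2
    have hlen : n.primeFactorsList.length = k := by
      have := (key t0 (Finset.mem_filter.1 h0).2).length_eq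
      rw [List.length_ofFn] at this
      exact this.symm
    calc (univ.filter fun t : Fin k → Q => ∏ i, (t i : ℕ) = n).card
        ≤ (n.primeFactorsList.permutations.toFinset).card := by
          refine Finset.card_le_card_of_injOn (fun t => List.ofFn fun i => (t i : ℕ)) ?_ ?_
          · intro t ht
            rw [Finset.mem_coe, List.mem_toFinset, List.mem_permutations]
            exact key t (Finset.mem_filter.1 ht).2
          · intro t _ t' _ h
            have := List.ofFn_injective h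
            funext i
            exact Subtype.ext (congrFun this i)
      _ ≤ n.primeFactorsList.permutations.length := List.toFinset_card_le _
      _ = k.factorial := by rw [List.length_permutations, hlen]

theorem sum_rk {Q : Finset ℕ} {k N : ℕ}
    (hN : ∀ t : Fin k → Q, ∏ i, (t i : ℕ) ∈ Icc 1 N) (f : ℕ → ℂ) :
    ∑ n ∈ Icc 1 N, (rk Q k n : ℂ) * f n = ∑ t : Fin k → Q, f (∏ i, (t i : ℕ)) := by
  rw [← Finset.sum_fiberwise_of_maps_to (fun t _ => hN t)]
  refine Finset.sum_congr rfl fun n _ => ?_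
  rw [rk, ← nsmul_eq_mul, ← Finset.sum_const]
  refine Finset.sum_congr rfl fun t ht => ?_
  rw [(Finset.mem_filter.1 ht).2]

theorem sum_pow {Q : Finset ℕ} (k : ℕ) {q : ℕ} (χ : DirichletCharacter ℂ q) :
    ∑ t : Fin k → Q, χ ((∏ i, (t i : ℕ) : ℕ) : ZMod q) = (∑ p ∈ Q, χ ((p : ℕ) : ZMod q)) ^ k := by
  have h1 : (∏ _i : Fin k, ∑ p : Q, χ ((p : ℕ) : ZMod q)) = ∑ t : Fin k → Q, ∏ i, χ ((t i : ℕ) : ZMod q) := by
    rw [Finset.prod_univ_sum, Fintype.piFinset_univ]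
  rw [Finset.prod_const, Finset.card_univ, Fintype.card_fin,
    Finset.sum_coe_sort Q fun p => χ ((p : ℕ) : ZMod q)] at h1
  rw [h1]
  refine Finset.sum_congr rfl fun t _ => ?_
  push_cast
  rw [map_prod]

/-- a primitive character with a large sum over `Q` -/
def Ex (Q : Finset ℕ) (η : ℝ) (q : ℕ) : Prop :=
  ∃ χ : DirichletCharacter ℂ q, χ.IsPrimitive ∧ η * (Q.card : ℝ) < ‖∑ p ∈ Q, χ ((p : ℕ) : ZMod q)‖

theorem exists_ex {Q : Finset ℕ} {η : ℝ} {A z : ℕ} (hA : 0 < A) (hcop : ∀ p ∈ Q, Nat.Coprime p A)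
    (hr : Rough z A) (hne : ¬ NE Q η A) : ∃ q, q ∣ A ∧ Ex Q η q ∧ z < q := by
  have : NeZero A := ⟨hA.ne'⟩
  rw [NE] at hne
  push Not at hne
  obtain ⟨χ, hχ, hbig⟩ := hne
  refine ⟨χ.conductor, χ.conductor_dvd_level, ⟨χ.primitiveCharacter, χ.primitiveCharacter_isPrimitive, ?_⟩, ?_⟩
  · have : ∑ p ∈ Q, χ.primitiveCharacter ((p : ℕ) : ZMod χ.conductor) = ∑ p ∈ Q, χ ((p : ℕ) : ZMod A) := by
      refine Finset.sum_congr rfl fun p hp => ?_
      have := χ.primitiveCharacter_apply_of_isCoprime (a := (p : ℤ)) (Nat.isCoprime_iff_coprime.2 (hcop p hp))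
      exact_mod_cast this
    rw [this]
    exact hbig
  · have h1 : χ.conductor ≠ 1 := by
      intro h
      exact hχ (χ.eq_one_iff_conductor_eq_one.2 h)
    obtain ⟨r, hr1, hr2⟩ := Nat.exists_prime_and_dvd h1
    have h2 := hr r hr1 (hr2.trans χ.conductor_dvd_level)
    have h3 : χ.conductor ≠ 0 := χ.conductor_ne_zero
    exact lt_of_lt_of_le h2 (Nat.le_of_dvd (Nat.pos_of_ne_zero h3) hr2)

/-- the large sieve for the `k`-th power of the sum over `Q` -/
theorem ls_pow {Q : Finset ℕ} (hQ : ∀ p ∈ Q, p.Prime) {k X F : ℕ} (hX : ∀ p ∈ Q, p ≤ X) {η : ℝ} (hη : 0 ≤ η)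
    (E : Finset ℕ) (hE : ∀ q ∈ E, 1 ≤ q ∧ q ≤ F ∧ Ex Q η q) :
    (E.card : ℝ) * (η * Q.card) ^ (2 * k) ≤ 6 * ((X : ℝ) ^ k + (F : ℝ) ^ 2) * (k.factorial * (Q.card : ℝ) ^ k) := by
  classical
  have hN : ∀ t : Fin k → Q, ∏ i, (t i : ℕ) ∈ Icc 1 (X ^ k) := by
    intro t
    rw [Finset.mem_Icc]
    refine ⟨Nat.one_le_iff_ne_zero.2 (Finset.prod_ne_zero_iff.2 fun i _ => (hQ _ (t i).2).ne_zero), ?_⟩
    calc ∏ i, (t i : ℕ) ≤ ∏ _i : Fin k, X := Finset.prod_le_prod' fun i _ => hX _ (t i).2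
      _ = X ^ k := by rw [Finset.prod_const, Finset.card_univ, Fintype.card_fin]
  have h1 := Pool.Agent.Helper112.mult_large_sieve (X ^ k) F (fun n => (rk Q k n : ℂ))
  have h2 : ∑ n ∈ Icc 1 (X ^ k), ‖(rk Q k n : ℂ)‖ ^ 2 ≤ k.factorial * (Q.card : ℝ) ^ k := by
    have h3 : ∑ n ∈ Icc 1 (X ^ k), (rk Q k n : ℝ) = (Q.card : ℝ) ^ k := by
      have := sum_rk hN (fun _ => 1)
      simp only [mul_one, Finset.sum_const, Finset.card_univ, nsmul_eq_mul, Fintype.card_fun, Fintype.card_coe,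
        Fintype.card_fin] at this
      have h4 : ((∑ n ∈ Icc 1 (X ^ k), (rk Q k n : ℝ) : ℝ) : ℂ) = ((Q.card : ℝ) ^ k : ℝ) := by
        push_cast
        push_cast at this
        exact this
      exact_mod_cast h4
    calc ∑ n ∈ Icc 1 (X ^ k), ‖(rk Q k n : ℂ)‖ ^ 2 ≤ ∑ n ∈ Icc 1 (X ^ k), (k.factorial : ℝ) * rk Q k n := by
          refine Finset.sum_le_sum fun n _ => ?_
          rw [Complex.norm_natCast, sq]
          exact mul_le_mul_of_nonneg_right (by exact_mod_cast rk_le hQ k n) (Nat.cast_nonneg _)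
      _ = _ := by rw [← Finset.mul_sum, h3]
  have h3 : (E.card : ℝ) * (η * Q.card) ^ (2 * k) ≤ ∑ f ∈ Icc 1 F, ((f : ℝ) / (Nat.totient f : ℝ)) *
      ∑ χ ∈ (univ : Finset (DirichletCharacter ℂ f)).filter (fun χ => χ.IsPrimitive),
        ‖∑ n ∈ Icc 1 (X ^ k), (rk Q k n : ℂ) * χ (n : ZMod f)‖ ^ 2 := by
    have h4 : E ⊆ Icc 1 F := fun q hq => Finset.mem_Icc.2 ⟨(hE q hq).1, (hE q hq).2.1⟩
    refine le_trans ?_ (Finset.sum_le_sum_of_subset_of_nonneg h4 fun q _ _ => by positivity)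
    rw [← nsmul_eq_mul, ← Finset.sum_const]
    refine Finset.sum_le_sum fun q hq => ?_
    obtain ⟨hq1, -, χ, hχ, hbig⟩ := hE q hq
    have h5 : (1 : ℝ) ≤ (q : ℝ) / (Nat.totient q : ℝ) := by
      have h6 : (0 : ℝ) < Nat.totient q := by exact_mod_cast Nat.totient_pos.2 hq1
      rw [one_le_div h6]
      exact_mod_cast Nat.totient_le q
    refine le_trans ?_ (le_mul_of_one_le_left (by positivity) h5)
    refine le_trans ?_ (Finset.single_le_sum (f := fun χ : DirichletCharacter ℂ q =>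
      ‖∑ n ∈ Icc 1 (X ^ k), (rk Q k n : ℂ) * χ (n : ZMod q)‖ ^ 2) (fun χ _ => by positivity)
      (Finset.mem_filter.2 ⟨Finset.mem_univ χ, hχ⟩))
    have h7 : ∑ n ∈ Icc 1 (X ^ k), (rk Q k n : ℂ) * χ (n : ZMod q) =
      ∑ t : Fin k → Q, χ ((∏ i, (t i : ℕ) : ℕ) : ZMod q) := sum_rk hN (fun n => χ (n : ZMod q))
    rw [h7, sum_pow, norm_pow, ← pow_mul, mul_comm k 2]
    exact pow_le_pow_left₀ (by positivity) hbig.le _
  refine h3.trans (h1.trans ?_)
  push_cast
  exact mul_le_mul_of_nonneg_left h2 (by positivity)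

/-- few exceptional conductors in a dyadic interval -/
theorem dyadic {lam y i : ℕ} (hlam : 1 ≤ lam) (hQc : 2 ^ (16 * lam) ≤ 16 * lam * (Qs (16 * lam)).card)
    (hy : 128 * lam * (2 * y + 4) ≤ 2 ^ (2 * lam)) (hi : i < y) (E : Finset ℕ)
    (hE : ∀ q ∈ E, 1 ≤ q ∧ q ≤ 2 ^ (i + 1) ∧ Ex (Qs (16 * lam)) ((1 / 2) ^ lam) q) :
    E.card ≤ 12 * 2 ^ (4 * lam + (i + 1) / 2) := by
  set Q := Qs (16 * lam) with hQ
  set k := 2 * (i + 1) / (16 * lam + 3) + 1 with hk
  have hk1 : 2 * (i + 1) ≤ (16 * lam + 3) * k := by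
    have := Nat.div_add_mod (2 * (i + 1)) (16 * lam + 3)
    have h2 := Nat.mod_lt (2 * (i + 1)) (show 0 < 16 * lam + 3 by omega)
    rw [hk]
    nlinarith
  have hk2 : 4 * lam * k ≤ 4 * lam + (i + 1) / 2 := by
    have h1 : (2 * (i + 1) / (16 * lam + 3)) * (16 * lam + 3) ≤ 2 * (i + 1) := Nat.div_mul_le_self _ _
    have h2 : 4 * lam * (2 * (i + 1) / (16 * lam + 3)) ≤ (i + 1) / 2 := by
      rw [Nat.le_div_iff_mul_le (by norm_num)]
      nlinarith
    rw [hk]
    nlinarith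
  have hk3 : k ≤ 2 * y + 4 := by
    have h1 : 2 * (i + 1) / (16 * lam + 3) ≤ 2 * (i + 1) := Nat.div_le_self _ _
    omega
  have hprime : ∀ p ∈ Q, p.Prime := fun p hp => (Finset.mem_filter.1 hp).2
  have hX : ∀ p ∈ Q, p ≤ 2 ^ (16 * lam + 3) := fun p hp => (Finset.mem_Ioc.1 (Finset.mem_filter.1 hp).1).2
  have h1 := ls_pow hprime (k := k) hX (η := (1 / 2) ^ lam) (by positivity) E hE
  have hq0 : (0 : ℝ) < Q.card := by
    have : 0 < Q.card := by
      rcases Nat.eq_zero_or_pos Q.card with h | h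
      · rw [h, mul_zero] at hQc
        exact absurd hQc (not_le.2 (by positivity))
      · exact h
    exact_mod_cast this
  have h2 : ((2 ^ (16 * lam + 3) : ℕ) : ℝ) ^ k + ((2 ^ (i + 1) : ℕ) : ℝ) ^ 2 ≤ 2 * 2 ^ ((16 * lam + 3) * k) := by
    push_cast
    rw [← pow_mul, ← pow_mul]
    have : (2 : ℝ) ^ ((i + 1) * 2) ≤ 2 ^ ((16 * lam + 3) * k) := pow_le_pow_right₀ (by norm_num) (by omega)
    linarith
  have h3 : (E.card : ℝ) * (Q.card : ℝ) ^ k ≤
      12 * 2 ^ (2 * lam * k) * 2 ^ ((16 * lam + 3) * k) * k.factorial := by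
    have e1 : (((1 / 2 : ℝ) ^ lam) * Q.card) ^ (2 * k) * 2 ^ (2 * lam * k) = (Q.card : ℝ) ^ k * (Q.card : ℝ) ^ k := by
      rw [mul_pow, ← pow_mul, show lam * (2 * k) = 2 * lam * k by ring, mul_right_comm, ← mul_pow]
      norm_num
      ring
    have e2 : (E.card : ℝ) * ((Q.card : ℝ) ^ k * (Q.card : ℝ) ^ k) ≤
        6 * (2 * 2 ^ ((16 * lam + 3) * k)) * (k.factorial * (Q.card : ℝ) ^ k) * 2 ^ (2 * lam * k) := by
      rw [← e1, ← mul_assoc]
      refine mul_le_mul_of_nonneg_right (h1.trans ?_) (by positivity)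
      refine mul_le_mul_of_nonneg_right ?_ (by positivity)
      exact mul_le_mul_of_nonneg_left h2 (by norm_num)
    have e3 : ((E.card : ℝ) * (Q.card : ℝ) ^ k) * (Q.card : ℝ) ^ k ≤
        (12 * 2 ^ (2 * lam * k) * 2 ^ ((16 * lam + 3) * k) * k.factorial) * (Q.card : ℝ) ^ k := by
      calc _ = (E.card : ℝ) * ((Q.card : ℝ) ^ k * (Q.card : ℝ) ^ k) := by ring
        _ ≤ _ := e2
        _ = _ := by ring
    exact le_of_mul_le_mul_right e3 (by positivity)
  have h4 : (2 : ℝ) ^ (16 * lam * k) ≤ (16 * lam : ℝ) ^ k * (Q.card : ℝ) ^ k := by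
    rw [pow_mul, ← mul_pow]
    refine pow_le_pow_left₀ (by positivity) ?_ k
    exact_mod_cast hQc
  have h5 : (128 * lam : ℝ) ^ k * k.factorial ≤ 2 ^ (2 * lam * k) := by
    have e1 : (k.factorial : ℝ) ≤ (k : ℝ) ^ k := by exact_mod_cast Nat.factorial_le_pow k
    have e2 : (128 * lam * k : ℝ) ≤ 2 ^ (2 * lam) := by
      have : 128 * lam * k ≤ 2 ^ (2 * lam) := (Nat.mul_le_mul_left _ hk3).trans hy
      exact_mod_cast this
    calc (128 * lam : ℝ) ^ k * k.factorial ≤ (128 * lam : ℝ) ^ k * (k : ℝ) ^ k :=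
          mul_le_mul_of_nonneg_left e1 (by positivity)
      _ = (128 * lam * k : ℝ) ^ k := (mul_pow _ _ _).symm
      _ ≤ (2 ^ (2 * lam)) ^ k := pow_le_pow_left₀ (by positivity) e2 k
      _ = _ := (pow_mul _ _ _).symm
  have h6 : (E.card : ℝ) * 2 ^ (16 * lam * k) ≤ (12 * 2 ^ (4 * lam * k)) * 2 ^ (16 * lam * k) := by
    calc (E.card : ℝ) * 2 ^ (16 * lam * k) ≤ (E.card : ℝ) * ((16 * lam : ℝ) ^ k * (Q.card : ℝ) ^ k) :=
          mul_le_mul_of_nonneg_left h4 (Nat.cast_nonneg _)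
      _ = (16 * lam : ℝ) ^ k * ((E.card : ℝ) * (Q.card : ℝ) ^ k) := by ring
      _ ≤ (16 * lam : ℝ) ^ k * (12 * 2 ^ (2 * lam * k) * 2 ^ ((16 * lam + 3) * k) * k.factorial) :=
          mul_le_mul_of_nonneg_left h3 (by positivity)
      _ = (12 * 2 ^ (2 * lam * k) * 2 ^ (16 * lam * k)) * ((128 * lam : ℝ) ^ k * k.factorial) := by
          have : (128 * lam : ℝ) ^ k = (16 * lam : ℝ) ^ k * 2 ^ (3 * k) := by
            rw [pow_mul, ← mul_pow]; congr 1; ring
          rw [this, show (16 * lam + 3) * k = 16 * lam * k + 3 * k by ring, pow_add]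
          ring
      _ ≤ (12 * 2 ^ (2 * lam * k) * 2 ^ (16 * lam * k)) * 2 ^ (2 * lam * k) :=
          mul_le_mul_of_nonneg_left h5 (by positivity)
      _ = _ := by
          rw [show 4 * lam * k = 2 * lam * k + 2 * lam * k by ring, pow_add]
          ring
  have h7 : (E.card : ℝ) ≤ 12 * 2 ^ (4 * lam * k) := le_of_mul_le_mul_right h6 (by positivity)
  have h8 : E.card ≤ 12 * 2 ^ (4 * lam * k) := by exact_mod_cast h7
  exact h8.trans (Nat.mul_le_mul_left _ (Nat.pow_le_pow_right (by norm_num) hk2))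

/-- the multiples of `q` up to `Y` -/
theorem card_mult (Y q : ℕ) : ((Icc 1 Y).filter fun A => q ∣ A).card ≤ Y / q := by
  rw [← Nat.card_multiples Y q]
  refine Finset.card_le_card_of_injOn (fun A => A - 1) ?_ ?_
  · intro A hA
    rw [Finset.mem_coe, Finset.mem_filter, Finset.mem_Icc] at hA
    rw [Finset.mem_coe, Finset.mem_filter, Finset.mem_range]
    refine ⟨by show A - 1 < Y; omega, ?_⟩
    have : A - 1 + 1 = A := by omega
    show q ∣ A - 1 + 1
    rw [this]; exact hA.2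
  · intro A hA B hB h
    rw [Finset.mem_coe, Finset.mem_filter, Finset.mem_Icc] at hA hB
    simp only at h
    omega

/-- the geometric series -/
theorem geo (lam z0 n : ℕ) :
    (∑ i ∈ Finset.Ico z0 (z0 + n), 12 * 2 ^ (4 * lam + (i + 1) / 2) * 2 ^ (z0 + n - i)) * 2 ^ (z0 / 2) +
      12 * 2 ^ (z0 + 4 * lam) * (2 * 2 ^ (n / 2) + 2 * 2 ^ ((n + 1) / 2)) ≤ 48 * 2 ^ (z0 + n + 4 * lam) := by
  induction n with
  | zero =>
    simp only [add_zero, Finset.Ico_self, Finset.sum_empty, zero_mul, zero_add, Nat.zero_div, pow_zero]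
    norm_num
    apply le_of_eq; ring
  | succ n ih =>
    have h1 : ∑ i ∈ Finset.Ico z0 (z0 + (n + 1)), 12 * 2 ^ (4 * lam + (i + 1) / 2) * 2 ^ (z0 + (n + 1) - i) =
        2 * (∑ i ∈ Finset.Ico z0 (z0 + n), 12 * 2 ^ (4 * lam + (i + 1) / 2) * 2 ^ (z0 + n - i)) +
          24 * 2 ^ (4 * lam + (z0 + n + 1) / 2) := by
      rw [← add_assoc, Finset.sum_Ico_succ_top (by omega), Finset.mul_sum]
      congr 1
      · refine Finset.sum_congr rfl fun i hi => ?_
        rw [Finset.mem_Ico] at hi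
        rw [show z0 + n + 1 - i = (z0 + n - i) + 1 by omega, pow_succ]
        ring
      · rw [show z0 + n + 1 - (z0 + n) = 1 by omega]; ring
    have h2 : 2 ^ (4 * lam + (z0 + n + 1) / 2) * 2 ^ (z0 / 2) ≤ 2 ^ (z0 + 4 * lam) * 2 ^ ((n + 1) / 2) := by
      rw [← pow_add, ← pow_add]
      exact Nat.pow_le_pow_right (by norm_num) (by omega)
    have h3 : 2 ^ ((n + 1 + 1) / 2) = 2 * 2 ^ (n / 2) := by
      rw [show (n + 1 + 1) / 2 = n / 2 + 1 by omega, pow_succ]; ring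
    have h4 : 2 ^ (z0 + (n + 1) + 4 * lam) = 2 * 2 ^ (z0 + n + 4 * lam) := by
      rw [show z0 + (n + 1) + 4 * lam = (z0 + n + 4 * lam) + 1 by omega, pow_succ]; ring
    rw [h1, h3, h4, add_mul]
    nlinarith

theorem exc : S_EXC := by
  classical
  intro lam y z0 K hlam hz0 hQc hy hK
  set Q := Qs (16 * lam) with hQ
  -- exceptional conductors
  let E : ℕ → Finset ℕ := fun i => (Ioc (2 ^ i) (2 ^ (i + 1))).filter fun q => Ex Q ((1 / 2) ^ lam) q
  have hE : ∀ i < y, (E i).card ≤ 12 * 2 ^ (4 * lam + (i + 1) / 2) := by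
    intro i hi
    refine dyadic hlam hQc hy hi (E i) fun q hq => ?_
    obtain ⟨h1, h2⟩ := Finset.mem_filter.1 hq
    rw [Finset.mem_Ioc] at h1
    exact ⟨by omega, h1.2, h2⟩
  have hcov : K ⊆ (Finset.Ico z0 y).biUnion fun i => (E i).biUnion fun q =>
      (Icc 1 (2 ^ y)).filter fun A => q ∣ A := by
    intro A hA
    obtain ⟨hA0, hAy, hr, hcop, hne⟩ := hK A hA
    obtain ⟨q, hqA, hex, hzq⟩ := exists_ex hA0 hcop hr hne
    have hqy : q ≤ 2 ^ y := (Nat.le_of_dvd hA0 hqA).trans hAy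
    have hq1 : 1 < q := lt_of_le_of_lt Nat.one_le_two_pow hzq
    -- the dyadic interval of `q`
    set i := Nat.log 2 (q - 1) with hi
    have hi1 : 2 ^ i ≤ q - 1 := Nat.pow_log_le_self 2 (by omega)
    have hi2 : q - 1 < 2 ^ (i + 1) := Nat.lt_pow_succ_log_self (by norm_num) _
    rw [Finset.mem_biUnion]
    refine ⟨i, ?_, ?_⟩
    · rw [Finset.mem_Ico]
      constructor
      · have : 2 ^ z0 < 2 ^ (i + 1) := by omega
        have := (Nat.pow_lt_pow_iff_right (by norm_num : 1 < 2)).1 this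
        omega
      · have : 2 ^ i < 2 ^ y := by omega
        exact (Nat.pow_lt_pow_iff_right (by norm_num : 1 < 2)).1 this
    · rw [Finset.mem_biUnion]
      refine ⟨q, ?_, ?_⟩
      · rw [Finset.mem_filter, Finset.mem_Ioc]
        exact ⟨⟨by omega, by omega⟩, hex⟩
      · rw [Finset.mem_filter, Finset.mem_Icc]
        exact ⟨⟨hA0, hAy⟩, hqA⟩
  have hcard : K.card ≤ ∑ i ∈ Finset.Ico z0 y, 12 * 2 ^ (4 * lam + (i + 1) / 2) * 2 ^ (y - i) := by
    refine (Finset.card_le_card hcov).trans (Finset.card_biUnion_le.trans (Finset.sum_le_sum fun i hi => ?_))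
    rw [Finset.mem_Ico] at hi
    refine Finset.card_biUnion_le.trans ?_
    have h1 : ∀ q ∈ E i, ((Icc 1 (2 ^ y)).filter fun A => q ∣ A).card ≤ 2 ^ (y - i) := by
      intro q hq
      have hq' := Finset.mem_Ioc.1 (Finset.mem_filter.1 hq).1
      refine (card_mult _ q).trans ?_
      refine (Nat.div_le_div_left hq'.1.le (by positivity)).trans (le_of_eq ?_)
      exact Nat.pow_div hi.2.le (by norm_num)
    refine (Finset.sum_le_sum h1).trans ?_
    rw [Finset.sum_const, smul_eq_mul]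
    exact Nat.mul_le_mul_right _ (hE i hi.2)
  -- the geometric series
  have hgeo : ∀ n : ℕ, (∑ i ∈ Finset.Ico z0 (z0 + n), 12 * 2 ^ (4 * lam + (i + 1) / 2) * 2 ^ (z0 + n - i)) * 2 ^ (z0 / 2) ≤
      48 * 2 ^ (z0 + n + 4 * lam) := by
    intro n
    exact (Nat.le_add_right _ _).trans (geo lam z0 n)
  rcases le_or_gt y z0 with h | h
  · rw [Finset.Ico_eq_empty (by omega), Finset.sum_empty] at hcard
    have : K.card = 0 := by omega
    rw [this, zero_mul]
    exact Nat.zero_le _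
  · obtain ⟨n, rfl⟩ := Nat.exists_eq_add_of_lt h
    have h1 := hgeo (n + 1)
    rw [← add_assoc] at h1
    calc K.card * 2 ^ (z0 / 2) ≤ _ := Nat.mul_le_mul_right _ hcard
      _ ≤ _ := h1
      _ ≤ 2 ^ (z0 + n + 1 + 4 * lam + 8) := by
          rw [pow_add 2 (z0 + n + 1 + 4 * lam) 8]
          nlinarith [Nat.one_le_two_pow (n := z0 + n + 1 + 4 * lam)]

end Pool.Agent.H33.EG
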