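import Pool.Agent.H51.EG.Def

/-! Project EGYPT: S_RD -/

open Finset

namespace Pool.Agent.H33.EG

open Pool.Agent.H51.EG

theorem rd : S_RD := by
  classical
  intro z0 V v hz0 hv hvV K hK
  set M : Multiset ℕ := Multiset.filter (fun p => 2 ^ z0 < p) (v.primeFactorsList : Multiset ℕ) with hM
  have hcard : K.card ≤ M.powerset.toFinset.card := by
    refine Finset.card_le_card_of_injOn (fun A => (A.primeFactorsList : Multiset ℕ)) ?_ ?_
    · intro A hA
      obtain ⟨h1, h2⟩ := hK A hA
      simp only [Finset.mem_coe, Multiset.mem_toFinset, Multiset.mem_powerset, hM, Multiset.le_filter]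
      refine ⟨Multiset.coe_le.2 (Nat.primeFactorsList_sublist_of_dvd h2 hv.ne').subperm, ?_⟩
      intro p hp
      have hp' : p ∈ A.primeFactorsList := hp
      exact h1 p (Nat.prime_of_mem_primeFactorsList hp') (Nat.dvd_of_mem_primeFactorsList hp')
    · intro A hA B hB h
      have hA0 : A ≠ 0 := fun h0 => hv.ne' (Nat.eq_zero_of_zero_dvd (h0 ▸ (hK A hA).2))
      have hB0 : B ≠ 0 := fun h0 => hv.ne' (Nat.eq_zero_of_zero_dvd (h0 ▸ (hK B hB).2))
      have : A.primeFactorsList.Perm B.primeFactorsList := Multiset.coe_eq_coe.1 h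
      exact Nat.eq_of_perm_primeFactorsList hA0 hB0 this
  have hM1 : M.card * z0 ≤ V := by
    have h1 : (2 ^ z0) ^ M.card ≤ M.prod := Multiset.pow_card_le_prod fun x hx => (Multiset.mem_filter.1 hx).2.le
    have h2 : M.prod ∣ v := by
      have := Multiset.prod_dvd_prod_of_le (Multiset.filter_le (fun p => 2 ^ z0 < p) (v.primeFactorsList : Multiset ℕ))
      rw [Multiset.prod_coe, Nat.prod_primeFactorsList hv.ne'] at this
      exact this
    have h3 := (h1.trans (Nat.le_of_dvd hv h2)).trans hvV
    rw [← pow_mul, mul_comm] at h3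
    exact (Nat.pow_le_pow_iff_right (by norm_num)).1 h3
  calc K.card ≤ M.powerset.toFinset.card := hcard
    _ ≤ M.powerset.card := Multiset.toFinset_card_le _
    _ = 2 ^ M.card := Multiset.card_powerset _
    _ ≤ 2 ^ (V / z0) := Nat.pow_le_pow_right (by norm_num) ((Nat.le_div_iff_mul_le (by omega)).2 hM1)

end Pool.Agent.H33.EG
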