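import Pool.Agent.H33.EG.Corr

/-! Project EGYPT: S_SM -/

open Finset

namespace Pool.Agent.H33.EG

open Pool.Agent.H51.EG

variable {Q : Finset ℕ} {s : ℕ}

theorem av_add (f g : Om Q s → ℝ) : av (fun ω => f ω + g ω) = av f + av g := by
  rw [av, av, av, Finset.sum_add_distrib, add_div]

theorem av_mul_left (c : ℝ) (f : Om Q s → ℝ) : av (fun ω => c * f ω) = c * av f := by
  rw [av, av, ← Finset.mul_sum, mul_div_assoc]

theorem av_sum {ι : Type*} (I : Finset ι) (f : ι → Om Q s → ℝ) :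
    av (fun ω => ∑ i ∈ I, f i ω) = ∑ i ∈ I, av (f i) := by
  simp only [av]
  rw [Finset.sum_comm, Finset.sum_div]

theorem av_mono {f g : Om Q s → ℝ} (h : ∀ ω, f ω ≤ g ω) : av f ≤ av g := by
  rw [av, av]
  exact div_le_div_of_nonneg_right (Finset.sum_le_sum fun ω _ => h ω) (Nat.cast_nonneg _)

theorem card_om_pos (hQ : Q.Nonempty) : (0 : ℝ) < Fintype.card (Om Q s) := by
  have hQ0 : (0 : ℝ) < Q.card := by exact_mod_cast hQ.card_pos
  rw [card_om]; exact Finset.prod_pos fun _ _ => by positivity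

theorem av_const (hQ : Q.Nonempty) (c : ℝ) : av (fun _ : Om Q s => c) = c := by
  rw [av, Finset.sum_const, Finset.card_univ, nsmul_eq_mul]
  exact mul_div_cancel_left₀ c (card_om_pos hQ).ne'

theorem W_eq (K : Finset (ℕ × ℕ)) (v : ℕ) :
    (W K v : ℝ) = ∑ k ∈ K, if k.1 ∣ v + k.2 then (1 : ℝ) else 0 := by
  classical
  rw [W, Finset.card_filter]
  push_cast
  refine Finset.sum_congr rfl fun k _ => ?_
  congr

theorem W_mul (K : Finset (ℕ × ℕ)) (v w : ℕ) :
    (W K v : ℝ) * W K w = ∑ k ∈ K, ∑ k' ∈ K, if k.1 ∣ v + k.2 ∧ k'.1 ∣ w + k'.2 then (1 : ℝ) else 0 := by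
  rw [W_eq, W_eq, Finset.sum_mul_sum]
  refine Finset.sum_congr rfl fun k _ => Finset.sum_congr rfl fun k' _ => ?_
  by_cases c1 : k.1 ∣ v + k.2 <;> by_cases c2 : k'.1 ∣ w + k'.2 <;> simp [c1, c2]

/-- the generating function of the Hamming distance -/
theorem sum_hamming (σ : Fin s → Bool) : ∑ τ : Fin s → Bool, (1 / 4 : ℝ) ^ hammingDist σ τ = (5 / 4) ^ s := by
  have h2 : ∀ τ : Fin s → Bool, (1 / 4 : ℝ) ^ hammingDist σ τ = ∏ i : Fin s, (if σ i ≠ τ i then (1 / 4 : ℝ) else 1) := by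
    intro τ
    rw [Finset.prod_ite, Finset.prod_const_one, mul_one, Finset.prod_const]
    rfl
  simp only [h2]
  have h3 : ∏ i : Fin s, ∑ b : Bool, (if σ i ≠ b then (1 / 4 : ℝ) else 1) =
      ∑ τ : Fin s → Bool, ∏ i : Fin s, (if σ i ≠ τ i then (1 / 4 : ℝ) else 1) := by
    rw [Finset.prod_univ_sum, Fintype.piFinset_univ]
  rw [← h3]
  have h4 : ∀ i : Fin s, ∑ b : Bool, (if σ i ≠ b then (1 / 4 : ℝ) else 1) = 5 / 4 := by
    intro i
    cases σ i <;> norm_num
  simp only [h4, Finset.prod_const, Finset.card_univ, Fintype.card_fin]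

theorem hammingDist_not (σ : Fin s → Bool) : hammingDist σ (fun i => !σ i) = s := by
  rw [hammingDist]
  have : (Finset.univ.filter fun i => σ i ≠ !σ i) = Finset.univ := by
    ext i; cases σ i <;> simp
  rw [this, Finset.card_univ, Fintype.card_fin]

theorem NE_one (η : ℝ) : NE Q η 1 := by
  intro χ hχ
  exact absurd (Subsingleton.elim χ 1) hχ

theorem sm_of (hcorr : S_CORR) : S_SM := by
  intro Q s d η D K hQ hη hη1 hd hD hK hW
  have hηd : 0 ≤ η ^ d := pow_nonneg hη _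
  set Γ := Gam K with hΓ
  have hΓ0 : 0 ≤ Γ := Finset.sum_nonneg fun k _ => by positivity
  have hΓK : Γ ≤ K.card := by
    rw [hΓ, Gam, Finset.card_eq_sum_ones]; push_cast
    refine Finset.sum_le_sum fun k hk => ?_
    have : (1 : ℝ) ≤ k.1.totient := by exact_mod_cast Nat.totient_pos.2 (hK k hk).1
    exact (div_le_one (by linarith)).2 this
  have hK0 : (0 : ℝ) ≤ K.card := Nat.cast_nonneg _
  -- first moments
  have hfirst : ∀ σ : Fin s → Bool, |av (fun ω : Om Q s => (W K (u ω σ) : ℝ)) - Γ| ≤ K.card * η ^ d := by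
    intro σ
    simp only [W_eq]
    rw [av_sum, hΓ, Gam, ← Finset.sum_sub_distrib]
    refine (Finset.abs_sum_le_sum_abs _ _).trans ?_
    rw [← nsmul_eq_mul, ← Finset.sum_const]
    refine Finset.sum_le_sum fun k hk => ?_
    obtain ⟨h1, h2, h3, h4⟩ := hK k hk
    have := hcorr Q s η k.1 1 hQ hη hη1 h1 one_pos h2 (NE_one η) h3 (fun p _ => Nat.coprime_one_right p)
      k.2 0 h4 (Nat.coprime_one_right 0) σ (fun i => !σ i)
    rw [hammingDist_not] at this
    simp only [one_dvd, and_true, Nat.totient_one, Nat.cast_one, mul_one] at this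
    exact this.trans (pow_le_pow_of_le_one hη hη1 hd)
  -- far pairs
  have hfar : ∀ σ τ : Fin s → Bool, d ≤ hammingDist σ τ →
      av (fun ω : Om Q s => (W K (u ω σ) : ℝ) * W K (u ω τ)) ≤ Γ ^ 2 + (K.card : ℝ) ^ 2 * η ^ d := by
    intro σ τ hστ
    simp only [W_mul]
    rw [av_sum]
    have h1 : ∀ k ∈ K, av (fun ω : Om Q s => ∑ k' ∈ K, if k.1 ∣ u ω σ + k.2 ∧ k'.1 ∣ u ω τ + k'.2 then (1 : ℝ) else 0) ≤
        1 / (k.1.totient : ℝ) * Γ + K.card * η ^ d := by
      intro k hk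
      rw [av_sum, hΓ, Gam, Finset.mul_sum, ← nsmul_eq_mul, ← Finset.sum_const, ← Finset.sum_add_distrib]
      refine Finset.sum_le_sum fun k' hk' => ?_
      obtain ⟨h1, h2, h3, h4⟩ := hK k hk
      obtain ⟨g1, g2, g3, g4⟩ := hK k' hk'
      have := hcorr Q s η k.1 k'.1 hQ hη hη1 h1 g1 h2 g2 h3 g3 k.2 k'.2 h4 g4 σ τ
      have h5 := (abs_le.1 this).2
      have h6 : η ^ hammingDist σ τ ≤ η ^ d := pow_le_pow_of_le_one hη hη1 hστ
      have h7 : 1 / (k.1.totient : ℝ) * (1 / (k'.1.totient : ℝ)) = 1 / ((k.1.totient : ℝ) * k'.1.totient) := by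
        rw [one_div_mul_one_div]
      rw [h7]
      linarith
    refine (Finset.sum_le_sum h1).trans ?_
    rw [Finset.sum_add_distrib, ← Finset.sum_mul, Finset.sum_const, nsmul_eq_mul]
    have : ∑ i ∈ K, 1 / (i.1.totient : ℝ) = Γ := rfl
    rw [this]
    apply le_of_eq; ring
  -- close pairs
  have hclose : ∀ σ τ : Fin s → Bool,
      av (fun ω : Om Q s => (W K (u ω σ) : ℝ) * W K (u ω τ)) ≤ D * (Γ + K.card * η ^ d) := by
    intro σ τ
    have h1 : av (fun ω : Om Q s => (W K (u ω σ) : ℝ) * W K (u ω τ)) ≤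
        av (fun ω : Om Q s => D * (W K (u ω σ) : ℝ)) := by
      refine av_mono fun ω => ?_
      rw [mul_comm]
      exact mul_le_mul_of_nonneg_right (hW ω τ) (Nat.cast_nonneg _)
    rw [av_mul_left] at h1
    have h2 := (abs_le.1 (hfirst σ)).2
    refine h1.trans (mul_le_mul_of_nonneg_left ?_ (by linarith))
    linarith
  set E := D * (Γ + K.card * η ^ d) with hE
  have hE0 : 0 ≤ E := by positivity
  -- second moment of `Z`
  have hZZ : av (fun ω : Om Q s => Z K ω * Z K ω) ≤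
      4 ^ s * (Γ ^ 2 + (K.card : ℝ) ^ 2 * η ^ d) + 4 ^ d * (5 / 2) ^ s * E := by
    have h1 : (fun ω : Om Q s => Z K ω * Z K ω) =
        fun ω => ∑ σ : Fin s → Bool, ∑ τ : Fin s → Bool, (W K (u ω σ) : ℝ) * W K (u ω τ) := by
      funext ω; rw [Z, Finset.sum_mul_sum]
    rw [h1, av_sum]
    have h2 : ∀ σ : Fin s → Bool, av (fun ω : Om Q s => ∑ τ : Fin s → Bool, (W K (u ω σ) : ℝ) * W K (u ω τ)) ≤
        2 ^ s * (Γ ^ 2 + (K.card : ℝ) ^ 2 * η ^ d) + 4 ^ d * (5 / 4) ^ s * E := by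
      intro σ
      rw [av_sum]
      have h3 : ∀ τ : Fin s → Bool, av (fun ω : Om Q s => (W K (u ω σ) : ℝ) * W K (u ω τ)) ≤
          (Γ ^ 2 + (K.card : ℝ) ^ 2 * η ^ d) + 4 ^ d * E * (1 / 4) ^ hammingDist σ τ := by
        intro τ
        rcases le_or_gt d (hammingDist σ τ) with h | h
        · have h4 := hfar σ τ h
          have h5 : 0 ≤ (4 : ℝ) ^ d * E * (1 / 4) ^ hammingDist σ τ := by positivity
          linarith
        · have h4 := hclose σ τ
          have h5 : E ≤ (4 : ℝ) ^ d * E * (1 / 4) ^ hammingDist σ τ := by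
            have h6 : (1 : ℝ) ≤ 4 ^ d * (1 / 4) ^ hammingDist σ τ := by
              obtain ⟨r, hr⟩ := Nat.exists_eq_add_of_lt h
              have : (4 : ℝ) ^ d * (1 / 4) ^ hammingDist σ τ = 4 ^ (r + 1) := by
                rw [hr, add_assoc, pow_add (4 : ℝ) (hammingDist σ τ) (r + 1)]
                have h7 : (4 : ℝ) ^ hammingDist σ τ * (1 / 4) ^ hammingDist σ τ = 1 := by
                  rw [← mul_pow]; norm_num
                calc _ = 4 ^ (r + 1) * ((4 : ℝ) ^ hammingDist σ τ * (1 / 4) ^ hammingDist σ τ) := by ring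
                  _ = _ := by rw [h7, mul_one]
              rw [this]
              exact one_le_pow₀ (by norm_num)
            calc E = 1 * E := (one_mul _).symm
              _ ≤ (4 ^ d * (1 / 4) ^ hammingDist σ τ) * E := mul_le_mul_of_nonneg_right h6 hE0
              _ = _ := by ring
          have h6 : 0 ≤ Γ ^ 2 + (K.card : ℝ) ^ 2 * η ^ d := by positivity
          linarith
      refine (Finset.sum_le_sum fun τ _ => h3 τ).trans ?_
      rw [Finset.sum_add_distrib, ← Finset.mul_sum, sum_hamming, Finset.sum_const, Finset.card_univ, nsmul_eq_mul]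
      simp only [Fintype.card_fun, Fintype.card_bool, Fintype.card_fin]
      push_cast
      apply le_of_eq; ring
    refine (Finset.sum_le_sum fun σ _ => h2 σ).trans ?_
    rw [Finset.sum_const, Finset.card_univ, nsmul_eq_mul]
    simp only [Fintype.card_fun, Fintype.card_bool, Fintype.card_fin]
    push_cast
    have e1 : (4 : ℝ) ^ s = 2 ^ s * 2 ^ s := by rw [← mul_pow]; norm_num
    have e2 : (5 / 2 : ℝ) ^ s = 2 ^ s * (5 / 4) ^ s := by rw [← mul_pow]; norm_num
    rw [e1, e2]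
    apply le_of_eq; ring
  -- first moment of `Z`
  have hZ1 : 2 ^ s * (Γ - K.card * η ^ d) ≤ av (fun ω : Om Q s => Z K ω) := by
    have h1 : (fun ω : Om Q s => Z K ω) = fun ω => ∑ σ : Fin s → Bool, (W K (u ω σ) : ℝ) := by
      funext ω; rw [Z]
    rw [h1, av_sum]
    have h2 : ∑ _σ : Fin s → Bool, (Γ - K.card * η ^ d) = 2 ^ s * (Γ - K.card * η ^ d) := by
      rw [Finset.sum_const, Finset.card_univ, nsmul_eq_mul]
      simp only [Fintype.card_fun, Fintype.card_bool, Fintype.card_fin]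
      push_cast; ring
    rw [← h2]
    refine Finset.sum_le_sum fun σ _ => ?_
    have := (abs_le.1 (hfirst σ)).1
    linarith
  have hexp : av (fun ω : Om Q s => (Z K ω - 2 ^ s * Γ) ^ 2) =
      av (fun ω : Om Q s => Z K ω * Z K ω) + (-(2 * 2 ^ s * Γ)) * av (fun ω : Om Q s => Z K ω) + (2 ^ s * Γ) ^ 2 := by
    rw [← av_mul_left, ← av_add]
    have := av_const (Q := Q) (s := s) hQ ((2 ^ s * Γ) ^ 2)
    conv_rhs => rw [← this]
    rw [← av_add]
    congr 1
    funext ω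
    ring
  rw [hexp]
  have e1 : (4 : ℝ) ^ s = 2 ^ s * 2 ^ s := by rw [← mul_pow]; norm_num
  have p2 : (0 : ℝ) < 2 ^ s := by positivity
  have h5 : (2 * 2 ^ s * Γ) * (2 ^ s * (Γ - K.card * η ^ d)) ≤ (2 * 2 ^ s * Γ) * av (fun ω : Om Q s => Z K ω) :=
    mul_le_mul_of_nonneg_left hZ1 (by positivity)
  have h6 : Γ * (K.card * η ^ d) ≤ K.card * (K.card * η ^ d) := mul_le_mul_of_nonneg_right hΓK (by positivity)
  have h7 : 4 ^ s * (Γ * (K.card * η ^ d)) ≤ 4 ^ s * (K.card * (K.card * η ^ d)) :=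
    mul_le_mul_of_nonneg_left h6 (by positivity)
  have h8 : 4 ^ d * (5 / 2) ^ s * D * (Γ + K.card * η ^ d) = 4 ^ d * (5 / 2) ^ s * E := by rw [hE]; ring
  rw [h8]
  rw [e1] at hZZ h7 ⊢
  nlinarith [hZZ, h5, h7]

theorem sm : S_SM := sm_of corr

end Pool.Agent.H33.EG
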